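import Pool.Agent.H699.MW.Gr

set_option autoImplicit false

/-! Project MW (helper699): the statements FAR, MSM, DEP (helper790). -/

open MeasureTheory Finset
open scoped Classical

namespace Pool.Agent.H790.MW.SML

open Pool.Agent.H699.MW

theorem far_of {V : Type} [Fintype V] {G G' : SimpleGraph V} (hle : G' ≤ G) (hG : G.Connected)
    (A : Finset V) : ∀ (n : ℕ) (S : Finset V) (w : V), (∀ z ∈ A, n ≤ G.dist w z) →
    Far G' A n S w := by
  intro n
  induction n with
  | zero => intro S w _; exact trivial
  | succ n ih =>
    intro S w h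
    refine ⟨fun hw => ?_, fun x hx => ih _ _ fun z hz => ?_⟩
    · have h1 := h w hw
      rw [SimpleGraph.dist_self] at h1
      omega
    · have hadj : G.Adj w x := hle (Finset.mem_filter.1 hx).2
      have h1 := h z hz
      have h2 : G.dist w z ≤ G.dist w x + G.dist x z := hG.dist_triangle
      rw [SimpleGraph.dist_eq_one_iff_adj.2 hadj] at h2
      omega

theorem t_FAR : S_FAR := by
  intro V _ G hG u v r A huv hA
  have hle : G.deleteEdges {s(u, v)} ≤ G := SimpleGraph.deleteEdges_le _
  have key : ∀ z ∈ A, r ≤ G.dist u z ∧ r ≤ G.dist v z := by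
    intro z hz
    obtain ⟨_, y, hzy, hy⟩ := Finset.mem_filter.1 (hA hz)
    have h1 : ¬ (G.dist u y ≤ r ∨ G.dist v y ≤ r) := fun h =>
      hy (Finset.mem_filter.2 ⟨Finset.mem_univ _, h⟩)
    have h2 : G.dist u y ≤ G.dist u z + G.dist z y := hG.dist_triangle
    have h3 : G.dist v y ≤ G.dist v z + G.dist z y := hG.dist_triangle
    rw [SimpleGraph.dist_eq_one_iff_adj.2 hzy] at h2 h3
    omega
  exact ⟨far_of hle hG A r _ _ fun z hz => (key z hz).1,
    far_of hle hG A r _ _ fun z hz => (key z hz).2⟩

theorem meas_pmax {V Ω : Type} [MeasurableSpace Ω] (T : Finset V) (f : V → Ω → ℝ)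
    (hf : ∀ u, Measurable (f u)) : Measurable fun ω => pmax T fun u => f u ω := by
  induction T using Finset.induction_on with
  | empty =>
    have : (fun ω => pmax (∅ : Finset V) fun u => f u ω) = fun _ => (0 : ℝ) := by
      funext ω
      exact Finset.fold_empty
    rw [this]
    exact measurable_const
  | insert a T ha ih =>
    have : (fun ω => pmax (insert a T) fun u => f u ω) =
        fun ω => max (f a ω) (pmax T fun u => f u ω) := by
      funext ω
      exact Finset.fold_insert ha
    rw [this]
    exact (hf a).max ih

theorem t_MSM : S_MSM := by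
  intro V _ G b n
  induction n with
  | zero =>
    intro S v s
    have : msg G b 0 S v s = fun _ => if s then b else 0 := by
      funext ω
      rw [msg]
    rw [this]
    exact measurable_const
  | succ n ih =>
    intro S v s
    have : msg G b (n + 1) S v s = fun ω => pmax (nb G S v) fun u =>
        (fun (x : V) (ω : Sym2 V → ℝ) => ω s(v, x) - msg G b n (S.erase v) x (!s) ω) u ω := by
      funext ω
      rw [msg]
    rw [this]
    exact meas_pmax _ _ fun u => (measurable_pi_apply _).sub (ih _ _ _)

theorem t_DEP : S_DEP := by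
  intro V _ G b n
  induction n with
  | zero =>
    intro S v s ω ω' _
    rw [msg, msg]
  | succ n ih =>
    intro S v s ω ω' h
    rw [msg, msg]
    refine Finset.fold_congr fun x hx => ?_
    obtain ⟨hxS, hadj⟩ := Finset.mem_filter.1 hx
    have hxS' : x ∈ S := Finset.mem_of_mem_erase hxS
    have hvv : Rch G S v v := Relation.ReflTransGen.refl
    have hvx : Rch G S v x := Relation.ReflTransGen.single ⟨hadj, hxS'⟩
    have hm : ∀ y, Rch G (S.erase v) x y → Rch G S v y := by
      intro y hy
      unfold Rch at hy
      have h1 : Relation.ReflTransGen (fun y z => G.Adj y z ∧ z ∈ S) x y := by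
        induction hy with
        | refl => exact Relation.ReflTransGen.refl
        | tail _ hbc ihh => exact ihh.tail ⟨hbc.1, Finset.mem_of_mem_erase hbc.2⟩
      exact hvx.trans h1
    rw [h v x hvv hvx hadj, ih (S.erase v) x (!s) ω ω' fun y z hy hz hyz =>
      h y z (hm y hy) (hm z hz) hyz]

end Pool.Agent.H790.MW.SML
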